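import Pool.Agent.Helper33.CX.Words

/-!
# Project CX (MP_f22a19_gt): boxes of the letters by a straight line program

Boxes are given by centres and radii; the letter with index `i` is the identity, a generator, the
inverse of a generator, or (in the free group) the product of two letters with smaller indices.
-/

set_option autoImplicit false

namespace Pool.Agent.Helper33.CX

open Pool.CX Pool.Agent.Helper66.AF

/-- `x` is at distance at most `I.2` from `I.1` -/
def InC (I : Int × Nat) (x : ℝ) : Prop := |x - (I.1 : ℝ)| ≤ (I.2 : ℝ)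

/-- product -/
def cmul (a b : Int × Nat) : Int × Nat :=
  (Int.mul a.1 b.1, Nat.add (Nat.mul (Int.natAbs a.1) b.2)
    (Nat.add (Nat.mul (Int.natAbs b.1) a.2) (Nat.mul a.2 b.2)))

/-- sum -/
def cadd (a b : Int × Nat) : Int × Nat := (Int.add a.1 b.1, Nat.add a.2 b.2)

/-- division by `S`, rounded outwards -/
def cdiv (S : Nat) (a : Int × Nat) : Int × Nat :=
  (Int.ediv a.1 (Int.ofNat S), Nat.add (Nat.div a.2 S) 2)

theorem cmul_mem {a b : Int × Nat} {x y : ℝ} (hx : InC a x) (hy : InC b y) :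
    InC (cmul a b) (x * y) := by
  unfold InC at *
  have h1 : (cmul a b).1 = a.1 * b.1 := rfl
  have h2 : (cmul a b).2 = a.1.natAbs * b.2 + (b.1.natAbs * a.2 + a.2 * b.2) := rfl
  have h3 : ((a.1.natAbs : ℕ) : ℝ) = |(a.1 : ℝ)| := by
    rw [Nat.cast_natAbs, Int.cast_abs]
  have h4 : ((b.1.natAbs : ℕ) : ℝ) = |(b.1 : ℝ)| := by
    rw [Nat.cast_natAbs, Int.cast_abs]
  rw [h1, h2]
  push_cast
  have e : x * y - (a.1 : ℝ) * (b.1 : ℝ)
      = (a.1 : ℝ) * (y - b.1) + ((b.1 : ℝ) * (x - a.1) + (x - a.1) * (y - b.1)) := by ring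
  rw [h3, h4, e]
  refine le_trans (abs_add_le _ _) (add_le_add ?_ (le_trans (abs_add_le _ _) (add_le_add ?_ ?_)))
  · rw [abs_mul]
    exact mul_le_mul_of_nonneg_left hy (abs_nonneg _)
  · rw [abs_mul]
    exact mul_le_mul_of_nonneg_left hx (abs_nonneg _)
  · rw [abs_mul]
    exact mul_le_mul hx hy (abs_nonneg _) (by positivity)

theorem cadd_mem {a b : Int × Nat} {x y : ℝ} (hx : InC a x) (hy : InC b y) :
    InC (cadd a b) (x + y) := by
  unfold InC at *
  have h1 : (cadd a b).1 = a.1 + b.1 := rfl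
  have h2 : (cadd a b).2 = a.2 + b.2 := rfl
  rw [h1, h2]
  push_cast
  have e : x + y - ((a.1 : ℝ) + (b.1 : ℝ)) = (x - a.1) + (y - b.1) := by ring
  rw [e]
  exact le_trans (abs_add_le _ _) (add_le_add hx hy)

theorem cdiv_mem {a : Int × Nat} {x : ℝ} {S : Nat} (hS : 0 < S) (hx : InC a x) :
    InC (cdiv S a) (x / S) := by
  unfold InC at *
  have h1 : (cdiv S a).1 = a.1 / (S : ℤ) := rfl
  have h2 : (cdiv S a).2 = a.2 / S + 2 := rfl
  have hS' : (0 : ℝ) < (S : ℝ) := by exact_mod_cast hS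
  rw [h1, h2]
  have h3 : (0 : ℝ) ≤ (a.1 : ℝ) / S - ((a.1 / (S : ℤ) : ℤ) : ℝ)
      ∧ (a.1 : ℝ) / S - ((a.1 / (S : ℤ) : ℤ) : ℝ) ≤ 1 := by
    have e1 := Int.emod_add_mul_ediv a.1 (S : ℤ)
    have e2 := Int.emod_nonneg a.1 (show (S : ℤ) ≠ 0 by positivity)
    have e3 := Int.emod_lt_of_pos a.1 (show (0 : ℤ) < (S : ℤ) by exact_mod_cast hS)
    have e4 : (a.1 : ℝ) / S - ((a.1 / (S : ℤ) : ℤ) : ℝ) = ((a.1 % (S : ℤ) : ℤ) : ℝ) / S := by
      have e5 : (a.1 : ℝ) = ((a.1 % (S : ℤ) : ℤ) : ℝ) + (S : ℝ) * ((a.1 / (S : ℤ) : ℤ) : ℝ) := by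
        exact_mod_cast e1.symm
      rw [eq_div_iff hS'.ne', sub_mul, div_mul_cancel₀ _ hS'.ne']
      linarith
    rw [e4]
    constructor
    · exact div_nonneg (by exact_mod_cast e2) hS'.le
    · rw [div_le_one hS']
      exact_mod_cast e3.le
  have h4 : (a.2 : ℝ) / S ≤ ((a.2 / S : ℕ) : ℝ) + 1 := by
    rw [div_le_iff₀ hS']
    have := Nat.lt_div_mul_add (a := a.2) hS
    have e : (a.2 : ℝ) ≤ ((a.2 / S : ℕ) : ℝ) * S + S := by exact_mod_cast this.le
    linarith
  push_cast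
  have e : x / S - ((a.1 / (S : ℤ) : ℤ) : ℝ)
      = (x - a.1) / S + ((a.1 : ℝ) / S - ((a.1 / (S : ℤ) : ℤ) : ℝ)) := by ring
  have h5 : |(x - a.1) / S| ≤ (a.2 : ℝ) / S := by
    rw [abs_div, abs_of_pos hS']
    exact div_le_div_of_nonneg_right hx hS'.le
  have h6 : |(a.1 : ℝ) / S - ((a.1 / (S : ℤ) : ℤ) : ℝ)| ≤ 1 := by
    rw [abs_of_nonneg h3.1]
    exact h3.2
  rw [e]
  refine le_trans (abs_add_le _ _) ?_
  linarith

/-- an inclusion test -/
def csub (a b : Int × Nat) : Bool := Nat.ble (Nat.add (Int.natAbs (Int.sub a.1 b.1)) a.2) b.2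

theorem csub_mem {a b : Int × Nat} {x : ℝ} (h : csub a b = true) (hx : InC a x) : InC b x := by
  unfold csub at h
  have h1 := Nat.le_of_ble_eq_true h
  have h2 : (a.1 - b.1).natAbs + a.2 ≤ b.2 := h1
  have h3 : (((a.1 - b.1).natAbs : ℕ) : ℝ) = |(a.1 : ℝ) - (b.1 : ℝ)| := by
    rw [Nat.cast_natAbs, Int.cast_abs]
    push_cast
    rfl
  have h4 : (((a.1 - b.1).natAbs : ℕ) : ℝ) + (a.2 : ℝ) ≤ (b.2 : ℝ) := by exact_mod_cast h2
  unfold InC at *
  have e : x - (b.1 : ℝ) = (x - a.1) + (a.1 - b.1) := by ring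
  rw [e]
  refine le_trans (abs_add_le _ _) ?_
  rw [h3] at h4
  linarith

/-- the interval of a centred interval -/
def cint (a : Int × Nat) : ℤ × ℤ := (Int.sub a.1 (Int.ofNat a.2), Int.add a.1 (Int.ofNat a.2))

theorem cint_mem {a : Int × Nat} {x : ℝ} (hx : InC a x) : InI (cint a) x := by
  unfold InC at hx
  rw [abs_le] at hx
  have h1 : (cint a).1 = a.1 - (a.2 : ℤ) := rfl
  have h2 : (cint a).2 = a.1 + (a.2 : ℤ) := rfl
  unfold InI
  rw [h1, h2]
  push_cast
  constructor <;> linarith [hx.1, hx.2]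

/-- the coefficients of an affine function -/
structure RowC where
  a : Int × Nat
  b : Int × Nat
  c : Int × Nat
  t : Int × Nat

/-- the coefficients of an affine map -/
structure BoxC where
  r0 : RowC
  r1 : RowC
  r2 : RowC

/-- `f` is an affine function whose coefficients, multiplied by `s`, lie in the intervals -/
def RowC.Mem (R : RowC) (s : ℝ) (f : E3 → ℝ) : Prop :=
  ∃ a b c t : ℝ, InC R.a (s * a) ∧ InC R.b (s * b) ∧ InC R.c (s * c) ∧ InC R.t (s * t) ∧
    ∀ x, f x = a * x 0 + b * x 1 + c * x 2 + t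

/-- all coefficients of the affine map `A`, multiplied by `s`, lie in the intervals -/
def BoxC.Mem (B : BoxC) (s : ℝ) (A : Aff3) : Prop :=
  B.r0.Mem s (fun x => A x 0) ∧ B.r1.Mem s (fun x => A x 1) ∧ B.r2.Mem s (fun x => A x 2)

/-- three products, divided by `S` -/
def cdot (S : Nat) (a b c a' b' c' : Int × Nat) : Int × Nat :=
  cdiv S (cadd (cmul a a') (cadd (cmul b b') (cmul c c')))

theorem cdot_mem {S : Nat} (hS : 0 < S) {a b c a' b' c' : Int × Nat} {x y z x' y' z' : ℝ}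
    (ha : InC a (S * x)) (hb : InC b (S * y)) (hc : InC c (S * z))
    (ha' : InC a' (S * x')) (hb' : InC b' (S * y')) (hc' : InC c' (S * z')) :
    InC (cdot S a b c a' b' c') (S * (x * x' + y * y' + z * z')) := by
  have hS' : (0 : ℝ) < (S : ℝ) := by exact_mod_cast hS
  have h := cdiv_mem hS (cadd_mem (cmul_mem ha ha') (cadd_mem (cmul_mem hb hb') (cmul_mem hc hc')))
  unfold cdot
  have e : (S * (x * x' + y * y' + z * z') : ℝ)
      = (S * x * (S * x') + (S * y * (S * y') + S * z * (S * z'))) / S := by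
    field_simp
    ring
  rw [e]
  exact h

/-- a row times a box -/
def rcomp (S : Nat) (R : RowC) (B : BoxC) : RowC where
  a := cdot S R.a R.b R.c B.r0.a B.r1.a B.r2.a
  b := cdot S R.a R.b R.c B.r0.b B.r1.b B.r2.b
  c := cdot S R.a R.b R.c B.r0.c B.r1.c B.r2.c
  t := cadd (cdot S R.a R.b R.c B.r0.t B.r1.t B.r2.t) R.t

/-- the product of two boxes -/
def bcomp (S : Nat) (A B : BoxC) : BoxC where
  r0 := rcomp S A.r0 B
  r1 := rcomp S A.r1 B
  r2 := rcomp S A.r2 B

/-- the box of the identity -/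
def oneC (S : Nat) : BoxC where
  r0 := ⟨(Int.ofNat S, 0), (0, 0), (0, 0), (0, 0)⟩
  r1 := ⟨(0, 0), (Int.ofNat S, 0), (0, 0), (0, 0)⟩
  r2 := ⟨(0, 0), (0, 0), (Int.ofNat S, 0), (0, 0)⟩

/-- inclusion of rows -/
def rsub (R R' : RowC) : Bool := csub R.a R'.a && csub R.b R'.b && csub R.c R'.c && csub R.t R'.t

/-- inclusion of boxes -/
def bsub (A B : BoxC) : Bool := rsub A.r0 B.r0 && rsub A.r1 B.r1 && rsub A.r2 B.r2

/-- conversion -/
def RowC.toRow (R : RowC) : Row := ⟨cint R.a, cint R.b, cint R.c, cint R.t⟩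

/-- conversion -/
def BoxC.toABox (B : BoxC) : ABox := ⟨B.r0.toRow, B.r1.toRow, B.r2.toRow⟩

theorem RowC.Mem.toRow {R : RowC} {s : ℝ} {f : E3 → ℝ} (h : R.Mem s f) : R.toRow.Mem s f := by
  obtain ⟨a, b, c, t, ha, hb, hc, ht, hf⟩ := h
  exact ⟨a, b, c, t, cint_mem ha, cint_mem hb, cint_mem hc, cint_mem ht, hf⟩

theorem BoxC.Mem.toABox {B : BoxC} {s : ℝ} {A : Aff3} (h : B.Mem s A) : B.toABox.Mem s A :=
  ⟨h.1.toRow, h.2.1.toRow, h.2.2.toRow⟩

theorem rmem_comp {S : Nat} (hS : 0 < S) {R : RowC} {f : E3 → ℝ} (hf : R.Mem S f) {B : BoxC}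
    {b : E3 → E3} (h0 : B.r0.Mem S (fun x => b x 0)) (h1 : B.r1.Mem S (fun x => b x 1))
    (h2 : B.r2.Mem S (fun x => b x 2)) : (rcomp S R B).Mem S (fun x => f (b x)) := by
  obtain ⟨fa, fb, fc, ft, ha, hb, hc, ht, hf⟩ := hf
  obtain ⟨a0, b0, c0, t0, ha0, hb0, hc0, ht0, h0⟩ := h0
  obtain ⟨a1, b1, c1, t1, ha1, hb1, hc1, ht1, h1⟩ := h1
  obtain ⟨a2, b2, c2, t2, ha2, hb2, hc2, ht2, h2⟩ := h2
  refine ⟨fa * a0 + fb * a1 + fc * a2, fa * b0 + fb * b1 + fc * b2, fa * c0 + fb * c1 + fc * c2,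
    (fa * t0 + fb * t1 + fc * t2) + ft, ?_, ?_, ?_, ?_, ?_⟩
  · exact cdot_mem hS ha hb hc ha0 ha1 ha2
  · exact cdot_mem hS ha hb hc hb0 hb1 hb2
  · exact cdot_mem hS ha hb hc hc0 hc1 hc2
  · rw [mul_add]
    exact cadd_mem (cdot_mem hS ha hb hc ht0 ht1 ht2) ht
  · intro x
    simp only at h0 h1 h2 ⊢
    rw [hf, h0, h1, h2]
    ring

theorem bmem_comp {S : Nat} (hS : 0 < S) {A B : BoxC} {a b : Aff3} (ha : A.Mem S a) (hb : B.Mem S b) :
    (bcomp S A B).Mem S (a * b) :=
  ⟨rmem_comp hS ha.1 hb.1 hb.2.1 hb.2.2, rmem_comp hS ha.2.1 hb.1 hb.2.1 hb.2.2,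
    rmem_comp hS ha.2.2 hb.1 hb.2.1 hb.2.2⟩

theorem bmem_one (S : Nat) : (oneC S).Mem S (1 : Aff3) := by
  refine ⟨⟨1, 0, 0, 0, ?_⟩, ⟨0, 1, 0, 0, ?_⟩, ⟨0, 0, 1, 0, ?_⟩⟩ <;>
    simp [oneC, InC, AffineEquiv.one_def]

theorem rmem_mono {R R' : RowC} {s : ℝ} {f : E3 → ℝ} (h : R.Mem s f) (hs : rsub R R' = true) :
    R'.Mem s f := by
  obtain ⟨a, b, c, t, ha, hb, hc, ht, hf⟩ := h
  unfold rsub at hs
  simp only [Bool.and_eq_true] at hs
  exact ⟨a, b, c, t, csub_mem hs.1.1.1 ha, csub_mem hs.1.1.2 hb, csub_mem hs.1.2 hc,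
    csub_mem hs.2 ht, hf⟩

theorem bmem_mono {A B : BoxC} {s : ℝ} {a : Aff3} (h : A.Mem s a) (hs : bsub A B = true) :
    B.Mem s a := by
  unfold bsub at hs
  simp only [Bool.and_eq_true] at hs
  exact ⟨rmem_mono h.1 hs.1.1, rmem_mono h.2.1 hs.1.2, rmem_mono h.2.2 hs.2⟩

/-- a step of the program -/
inductive Step
  /-- the identity -/
  | one : Step
  /-- a generator (`true`) or its inverse (`false`) -/
  | gen : ℕ → Bool → Step
  /-- the product of two letters -/
  | mul : ℕ → ℕ → Step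

/-- the box of a generator (first component) or of its inverse (second component) -/
def gboxC (gb : List (BoxC × BoxC)) (x : ℕ) : Bool → BoxC
  | true => (gb.getD x (oneC 0, oneC 0)).1
  | false => (gb.getD x (oneC 0, oneC 0)).2

/-- the box of a letter -/
def lbox (LB : List BoxC) (i : ℕ) : BoxC := LB.getD i (oneC 0)

/-- the check of one step: `i` is the index of the letter -/
def stepChk (S : Nat) (gb : List (BoxC × BoxC)) (L : List Word) (LB : List BoxC) (i : ℕ) :
    Step → Bool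
  | .one => (letter L i).isEmpty && bsub (oneC S) (lbox LB i)
  | .gen x s => Nat.blt x gb.length && (match letter L i with
      | [y] => Nat.beq y.1 x && (y.2 == s)
      | _ => false) && bsub (gboxC gb x s) (lbox LB i)
  | .mul j k => Nat.blt j i && Nat.blt k i &&
      (red (letter L j ++ (letter L k ++ winv (letter L i)))).isEmpty &&
      bsub (bcomp S (lbox LB j) (lbox LB k)) (lbox LB i)

/-- the check of the program: `i` is the index of the first letter -/
def slpChk (S : Nat) (gb : List (BoxC × BoxC)) (L : List Word) (LB : List BoxC) :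
    ℕ → List Step → Bool
  | _, [] => true
  | i, p :: l => stepChk S gb L LB i p && slpChk S gb L LB (i + 1) l

theorem stepChk_sound {S : Nat} (hS : 0 < S) {gb : List (BoxC × BoxC)} {g : ℕ → Aff3}
    (hg : ∀ i < gb.length, (gboxC gb i true).Mem S (g i) ∧ (gboxC gb i false).Mem S (g i)⁻¹)
    {L : List Word} {LB : List BoxC} {i : ℕ} (hi : ∀ j < i, (lbox LB j).Mem S (ev g (letter L j)))
    {p : Step} (h : stepChk S gb L LB i p = true) : (lbox LB i).Mem S (ev g (letter L i)) := by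
  cases p with
  | one =>
    rw [stepChk, Bool.and_eq_true, List.isEmpty_iff] at h
    rw [h.1, ev_nil]
    exact bmem_mono (bmem_one S) h.2
  | gen x s =>
    rw [stepChk, Bool.and_eq_true, Bool.and_eq_true] at h
    obtain ⟨⟨h1, h2⟩, h3⟩ := h
    have hx : x < gb.length := by rwa [Nat.blt_eq] at h1
    have h4 : letter L i = [(x, s)] := by
      cases hL : letter L i with
      | nil => rw [hL] at h2; simp at h2
      | cons y w =>
        cases w with
        | nil =>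
          rw [hL] at h2
          simp only [Bool.and_eq_true, beq_iff_eq] at h2
          obtain ⟨y1, y2⟩ := y
          simp only at h2
          rw [Nat.eq_of_beq_eq_true h2.1, h2.2]
        | cons z w => rw [hL] at h2; simp at h2
    rw [h4, ev_cons, ev_nil, mul_one]
    refine bmem_mono ?_ h3
    cases s
    · exact (hg x hx).2
    · exact (hg x hx).1
  | mul j k =>
    rw [stepChk, Bool.and_eq_true, Bool.and_eq_true, Bool.and_eq_true, List.isEmpty_iff] at h
    obtain ⟨⟨⟨h1, h2⟩, h3⟩, h4⟩ := h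
    have e := ev_red g (letter L j ++ (letter L k ++ winv (letter L i)))
    rw [h3, ev_nil, ev_append, ev_append, ev_winv, ← mul_assoc] at e
    rw [← mul_inv_eq_one.1 e.symm]
    exact bmem_mono (bmem_comp hS (hi j (by rwa [Nat.blt_eq] at h1)) (hi k (by rwa [Nat.blt_eq] at h2))) h4

theorem slpChk_sound {S : Nat} (hS : 0 < S) {gb : List (BoxC × BoxC)} {g : ℕ → Aff3}
    (hg : ∀ i < gb.length, (gboxC gb i true).Mem S (g i) ∧ (gboxC gb i false).Mem S (g i)⁻¹)
    {L : List Word} {LB : List BoxC} (l : List Step) (i : ℕ)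
    (hi : ∀ j < i, (lbox LB j).Mem S (ev g (letter L j))) (h : slpChk S gb L LB i l = true) :
    ∀ j < i + l.length, (lbox LB j).Mem S (ev g (letter L j)) := by
  induction l generalizing i with
  | nil => simpa using hi
  | cons p l ih =>
    rw [slpChk, Bool.and_eq_true] at h
    have := ih (i + 1) (fun j hj => ?_) h.2
    · intro j hj
      refine this j ?_
      rw [List.length_cons] at hj
      omega
    · rcases Nat.lt_succ_iff_lt_or_eq.1 hj with h' | rfl
      · exact hi j h'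
      · exact stepChk_sound hS hg hi h.1

/-- The real point given by generators, relators, boxes of the generators and a program. -/
def realPointC (g : ℕ → Aff3) {R : List Word} (hR : ∀ r ∈ R, ev g r = 1) {S : Nat} (hS : 0 < S)
    {gb : List (BoxC × BoxC)}
    (hg : ∀ i < gb.length, (gboxC gb i true).Mem S (g i) ∧ (gboxC gb i false).Mem S (g i)⁻¹)
    {σ : ℕ} (hσ : ∀ x, g σ x = sigmaL x) {L : List Word} (hL0 : letter L 0 = [])
    {rels : List (ℕ × ℕ × ℕ)} {bds : List ℕ}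
    (hrel : ∀ r ∈ rels, ∃ c : Cert, relChk R L (r, c) = true)
    (hcom : ∀ i ∈ bds, ∃ c : Cert, comChk R L σ (i, c) = true)
    {LB : List BoxC} {l : List Step} (hbox : slpChk S gb L LB 0 l = true) :
    RealPoint l.length rels bds (fun i => (lbox LB i).toABox) (S : ℝ) where
  A i := ev g (letter L i)
  zero := by rw [hL0, ev_nil]
  rel r hr := by
    obtain ⟨c, hc⟩ := hrel r hr
    have := ev_eq_of_chk g hR hc
    rw [ev_append] at this
    exact this
  comm i hi x := by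
    obtain ⟨c, hc⟩ := hcom i hi
    have h1 := ev_eq_of_chk g hR hc
    rw [ev_append, ev_cons, ev_cons, ev_nil, mul_one] at h1
    have h2 := congrArg (fun f : Aff3 => f x) h1
    simp only [evL, if_true, AffineEquiv.coe_mul, Function.comp_apply] at h2
    rw [hσ, hσ] at h2
    exact h2
  mem i hi := (slpChk_sound hS hg l 0 (by simp) hbox i (by simpa using hi)).toABox

end Pool.Agent.Helper33.CX
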