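import Pool.Agent.Helper47.CX.Iface

/-!
# Project CX (MP_f22a19_gt): words in generators, relations and boxes

The letters are words in finitely many generators of the affine group. Relations between letters are
verified in the group by free reduction: the word `u v⁻¹` is a product of conjugates of the given
relators, times a word which reduces to the empty word. Boxes of the letters are computed
from boxes of the generators and of their inverses by integer interval arithmetic.
-/

set_option autoImplicit false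

namespace Pool.Agent.Helper33.CX

open Pool.CX Pool.Agent.Helper66.AF

/-- a word: generator index, and `true` for the generator, `false` for its inverse -/
abbrev Word : Type := List (ℕ × Bool)

section grp

variable {G : Type*} [Group G] (g : ℕ → G)

/-- the value of a generator or of its inverse -/
def evL (x : ℕ × Bool) : G := if x.2 then g x.1 else (g x.1)⁻¹

/-- the value of a word -/
def ev : Word → G
  | [] => 1
  | x :: w => evL g x * ev w

theorem ev_nil : ev g [] = 1 := rfl

theorem ev_cons (x : ℕ × Bool) (w : Word) : ev g (x :: w) = evL g x * ev g w := rfl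

theorem ev_append (u v : Word) : ev g (u ++ v) = ev g u * ev g v := by
  induction u with
  | nil => simp [ev_nil]
  | cons x u ih => rw [List.cons_append, ev_cons, ev_cons, ih, mul_assoc]

/-- push a letter on a reduced word -/
def push (x : ℕ × Bool) : Word → Word
  | [] => [x]
  | y :: w => if x.1 = y.1 ∧ x.2 = !y.2 then w else x :: y :: w

/-- free reduction -/
def red : Word → Word
  | [] => []
  | x :: w => push x (red w)

theorem ev_push (x : ℕ × Bool) (w : Word) : ev g (push x w) = evL g x * ev g w := by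
  cases w with
  | nil => rfl
  | cons y w =>
    have hp : push x (y :: w) = if x.1 = y.1 ∧ x.2 = !y.2 then w else x :: y :: w := rfl
    rw [hp]
    split_ifs with h
    · rw [ev_cons, ← mul_assoc]
      have : evL g x * evL g y = 1 := by
        obtain ⟨x1, x2⟩ := x
        obtain ⟨y1, y2⟩ := y
        obtain ⟨h1, h2⟩ := h
        simp only at h1 h2
        subst h1 h2
        cases y2 <;> simp [evL]
      rw [this, one_mul]
    · rfl

theorem ev_red (w : Word) : ev g (red w) = ev g w := by
  induction w with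
  | nil => rfl
  | cons x w ih => rw [red, ev_push, ih, ev_cons]

/-- the inverse word -/
def winv (w : Word) : Word := (w.map fun x => (x.1, !x.2)).reverse

theorem ev_winv (w : Word) : ev g (winv w) = (ev g w)⁻¹ := by
  induction w with
  | nil => simp [winv, ev_nil]
  | cons x w ih =>
    have : winv (x :: w) = winv w ++ [(x.1, !x.2)] := by simp [winv]
    rw [this, ev_append, ih, ev_cons g x w, mul_inv_rev]
    congr 1
    obtain ⟨x1, x2⟩ := x
    cases x2 <;> simp [ev, evL]

/-- A certificate: a list of (conjugating word, index of the relator, sign). -/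
abbrev Cert : Type := List (Word × ℕ × Bool)

/-- the product of conjugates of relators given by a certificate -/
def cprod (R : List Word) : Cert → Word
  | [] => []
  | c :: l => c.1 ++ ((if c.2.2 then R.getD c.2.1 [] else winv (R.getD c.2.1 []))
      ++ (winv c.1 ++ cprod R l))

theorem ev_cprod {R : List Word} (hR : ∀ r ∈ R, ev g r = 1) (c : Cert) : ev g (cprod R c) = 1 := by
  have h0 : ∀ k : ℕ, ev g (R.getD k []) = 1 := by
    intro k
    rw [List.getD_eq_getElem?_getD]
    cases h : R[k]? with
    | none => rfl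
    | some r => exact hR r (List.mem_of_getElem? h)
  induction c with
  | nil => rfl
  | cons c l ih =>
    rw [cprod, ev_append, ev_append, ev_append, ev_winv, ih, mul_one]
    have : ev g (if c.2.2 = true then R.getD c.2.1 [] else winv (R.getD c.2.1 [])) = 1 := by
      split_ifs
      · exact h0 _
      · rw [ev_winv, h0, inv_one]
    rw [this, one_mul, mul_inv_cancel]

/-- the check that `u = v` is a consequence of the relators -/
def eqChk (R : List Word) (u v : Word) (c : Cert) : Bool :=
  (red (u ++ (winv v ++ cprod R c))).isEmpty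

theorem ev_eq_of_chk {R : List Word} (hR : ∀ r ∈ R, ev g r = 1) {u v : Word} {c : Cert}
    (h : eqChk R u v c = true) : ev g u = ev g v := by
  unfold eqChk at h
  rw [List.isEmpty_iff] at h
  have h1 := ev_red g (u ++ (winv v ++ cprod R c))
  rw [h, ev_nil, ev_append, ev_append, ev_winv, ev_cprod g hR, mul_one] at h1
  exact (mul_inv_eq_one.1 h1.symm)

end grp

/-! ### intervals -/

/-- product of intervals -/
def imul (I J : ℤ × ℤ) : ℤ × ℤ :=
  let a := I.1 * J.1
  let b := I.1 * J.2
  let c := I.2 * J.1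
  let d := I.2 * J.2
  (min (min a b) (min c d), max (max a b) (max c d))

/-- sum of intervals -/
def iadd (I J : ℤ × ℤ) : ℤ × ℤ := (I.1 + J.1, I.2 + J.2)

/-- division of an interval by a positive integer, rounded outwards -/
def idiv (S : ℤ) (I : ℤ × ℤ) : ℤ × ℤ := (I.1 / S, -((-I.2) / S))

/-- inclusion of intervals -/
def isub (I J : ℤ × ℤ) : Bool := decide (J.1 ≤ I.1) && decide (I.2 ≤ J.2)

theorem InI.imul {I J : ℤ × ℤ} {x y : ℝ} (hx : InI I x) (hy : InI J y) : InI (imul I J) (x * y) := by
  obtain ⟨h1, h2⟩ := hx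
  obtain ⟨h3, h4⟩ := hy
  unfold InI Pool.Agent.Helper33.CX.imul
  simp only
  push_cast
  constructor
  · rcases le_total 0 y with hy | hy
    · rcases le_total 0 (I.1 : ℝ) with hI | hI
      · refine le_trans (le_trans (min_le_left _ _) (min_le_left _ _)) ?_
        nlinarith
      · refine le_trans (le_trans (min_le_left _ _) (min_le_right _ _)) ?_
        nlinarith
    · rcases le_total 0 (I.2 : ℝ) with hI | hI
      · refine le_trans (le_trans (min_le_right _ _) (min_le_left _ _)) ?_
        nlinarith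
      · refine le_trans (le_trans (min_le_right _ _) (min_le_right _ _)) ?_
        nlinarith
  · rcases le_total 0 y with hy | hy
    · rcases le_total 0 (I.2 : ℝ) with hI | hI
      · refine le_trans ?_ (le_trans (le_max_right _ _) (le_max_right _ _))
        nlinarith
      · refine le_trans ?_ (le_trans (le_max_left _ _) (le_max_right _ _))
        nlinarith
    · rcases le_total 0 (I.1 : ℝ) with hI | hI
      · refine le_trans ?_ (le_trans (le_max_right _ _) (le_max_left _ _))
        nlinarith
      · refine le_trans ?_ (le_trans (le_max_left _ _) (le_max_left _ _))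
        nlinarith

theorem InI.iadd {I J : ℤ × ℤ} {x y : ℝ} (hx : InI I x) (hy : InI J y) : InI (iadd I J) (x + y) := by
  obtain ⟨h1, h2⟩ := hx
  obtain ⟨h3, h4⟩ := hy
  unfold InI Pool.Agent.Helper33.CX.iadd
  simp only
  push_cast
  constructor <;> linarith

theorem InI.idiv {I : ℤ × ℤ} {x : ℝ} {S : ℤ} (hS : 0 < S) (hx : InI I x) :
    InI (idiv S I) (x / S) := by
  obtain ⟨h1, h2⟩ := hx
  have hS' : (0 : ℝ) < (S : ℝ) := by exact_mod_cast hS
  unfold InI Pool.Agent.Helper33.CX.idiv
  simp only
  push_cast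
  constructor
  · rw [le_div_iff₀ hS']
    refine le_trans ?_ h1
    exact_mod_cast Int.ediv_mul_le I.1 hS.ne'
  · rw [div_le_iff₀ hS']
    refine le_trans h2 ?_
    have := Int.ediv_mul_le (-I.2) hS.ne'
    have h3 : (((-I.2) / S * S : ℤ) : ℝ) ≤ ((-I.2 : ℤ) : ℝ) := by exact_mod_cast this
    push_cast at h3
    linarith

theorem InI.mono {I J : ℤ × ℤ} {x : ℝ} (hx : InI I x) (h : isub I J = true) : InI J x := by
  obtain ⟨h1, h2⟩ := hx
  unfold isub at h
  rw [Bool.and_eq_true, decide_eq_true_iff, decide_eq_true_iff] at h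
  have h3 : (J.1 : ℝ) ≤ (I.1 : ℝ) := by exact_mod_cast h.1
  have h4 : (I.2 : ℝ) ≤ (J.2 : ℝ) := by exact_mod_cast h.2
  exact ⟨h3.trans h1, h2.trans h4⟩

/-- three products, divided by `S` -/
def idot (S : ℤ) (a b c a' b' c' : ℤ × ℤ) : ℤ × ℤ :=
  idiv S (iadd (imul a a') (iadd (imul b b') (imul c c')))

theorem InI.idot {S : ℤ} (hS : 0 < S) {a b c a' b' c' : ℤ × ℤ} {x y z x' y' z' : ℝ}
    (ha : InI a (S * x)) (hb : InI b (S * y)) (hc : InI c (S * z))
    (ha' : InI a' (S * x')) (hb' : InI b' (S * y')) (hc' : InI c' (S * z')) :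
    InI (idot S a b c a' b' c') (S * (x * x' + y * y' + z * z')) := by
  have hS' : (0 : ℝ) < (S : ℝ) := by exact_mod_cast hS
  have h := InI.idiv hS (InI.iadd (InI.imul ha ha') (InI.iadd (InI.imul hb hb') (InI.imul hc hc')))
  unfold Pool.Agent.Helper33.CX.idot
  have e : (S * (x * x' + y * y' + z * z') : ℝ)
      = (S * x * (S * x') + (S * y * (S * y') + S * z * (S * z'))) / S := by
    field_simp
    ring
  rw [e]
  exact h

/-- a row times a box -/
def Row.comp (S : ℤ) (R : Row) (B : ABox) : Row where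
  a := idot S R.a R.b R.c B.r0.a B.r1.a B.r2.a
  b := idot S R.a R.b R.c B.r0.b B.r1.b B.r2.b
  c := idot S R.a R.b R.c B.r0.c B.r1.c B.r2.c
  t := iadd (idot S R.a R.b R.c B.r0.t B.r1.t B.r2.t) R.t

/-- the product of two boxes -/
def ABox.comp (S : ℤ) (A B : ABox) : ABox where
  r0 := Row.comp S A.r0 B
  r1 := Row.comp S A.r1 B
  r2 := Row.comp S A.r2 B

/-- the box of the identity -/
def oneBox (S : ℤ) : ABox where
  r0 := ⟨(S, S), (0, 0), (0, 0), (0, 0)⟩
  r1 := ⟨(0, 0), (S, S), (0, 0), (0, 0)⟩
  r2 := ⟨(0, 0), (0, 0), (S, S), (0, 0)⟩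

/-- inclusion of rows -/
def Row.sub (R R' : Row) : Bool := isub R.a R'.a && isub R.b R'.b && isub R.c R'.c && isub R.t R'.t

/-- inclusion of boxes -/
def ABox.sub (A B : ABox) : Bool := Row.sub A.r0 B.r0 && Row.sub A.r1 B.r1 && Row.sub A.r2 B.r2

theorem rowMem_comp {S : ℤ} (hS : 0 < S) {R : Row} {f : E3 → ℝ} (hf : R.Mem S f) {B : ABox}
    {b : E3 → E3} (h0 : B.r0.Mem S (fun x => b x 0)) (h1 : B.r1.Mem S (fun x => b x 1))
    (h2 : B.r2.Mem S (fun x => b x 2)) : (Row.comp S R B).Mem S (fun x => f (b x)) := by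
  obtain ⟨fa, fb, fc, ft, ha, hb, hc, ht, hf⟩ := hf
  obtain ⟨a0, b0, c0, t0, ha0, hb0, hc0, ht0, h0⟩ := h0
  obtain ⟨a1, b1, c1, t1, ha1, hb1, hc1, ht1, h1⟩ := h1
  obtain ⟨a2, b2, c2, t2, ha2, hb2, hc2, ht2, h2⟩ := h2
  refine ⟨fa * a0 + fb * a1 + fc * a2, fa * b0 + fb * b1 + fc * b2, fa * c0 + fb * c1 + fc * c2,
    (fa * t0 + fb * t1 + fc * t2) + ft, ?_, ?_, ?_, ?_, ?_⟩
  · exact InI.idot hS ha hb hc ha0 ha1 ha2
  · exact InI.idot hS ha hb hc hb0 hb1 hb2
  · exact InI.idot hS ha hb hc hc0 hc1 hc2
  · rw [mul_add]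
    exact InI.iadd (InI.idot hS ha hb hc ht0 ht1 ht2) ht
  · intro x
    simp only at h0 h1 h2 ⊢
    rw [hf, h0, h1, h2]
    ring

theorem mem_comp {S : ℤ} (hS : 0 < S) {A B : ABox} {a b : Aff3} (ha : A.Mem S a) (hb : B.Mem S b) :
    (ABox.comp S A B).Mem S (a * b) :=
  ⟨rowMem_comp hS ha.1 hb.1 hb.2.1 hb.2.2, rowMem_comp hS ha.2.1 hb.1 hb.2.1 hb.2.2,
    rowMem_comp hS ha.2.2 hb.1 hb.2.1 hb.2.2⟩

theorem mem_one (S : ℤ) : (oneBox S).Mem S (1 : Aff3) := by
  refine ⟨⟨1, 0, 0, 0, ?_⟩, ⟨0, 1, 0, 0, ?_⟩, ⟨0, 0, 1, 0, ?_⟩⟩ <;>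
    simp [oneBox, InI, AffineEquiv.one_def]

theorem rowMem_mono {R R' : Row} {s : ℝ} {f : E3 → ℝ} (h : R.Mem s f) (hs : Row.sub R R' = true) :
    R'.Mem s f := by
  obtain ⟨a, b, c, t, ha, hb, hc, ht, hf⟩ := h
  unfold Row.sub at hs
  simp only [Bool.and_eq_true] at hs
  exact ⟨a, b, c, t, InI.mono ha hs.1.1.1, InI.mono hb hs.1.1.2, InI.mono hc hs.1.2,
    InI.mono ht hs.2, hf⟩

theorem mem_mono {A B : ABox} {s : ℝ} {a : Aff3} (h : A.Mem s a) (hs : ABox.sub A B = true) :
    B.Mem s a := by
  unfold ABox.sub at hs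
  simp only [Bool.and_eq_true] at hs
  exact ⟨rowMem_mono h.1 hs.1.1, rowMem_mono h.2.1 hs.1.2, rowMem_mono h.2.2 hs.2⟩

/-- the box of a generator (first component) or of its inverse (second component) -/
def gbox (gb : List (ABox × ABox)) (x : ℕ × Bool) : ABox :=
  let p := gb.getD x.1 (oneBox 0, oneBox 0)
  if x.2 then p.1 else p.2

/-- the box of a word -/
def wbox (S : ℤ) (gb : List (ABox × ABox)) : Word → ABox
  | [] => oneBox S
  | x :: w => ABox.comp S (gbox gb x) (wbox S gb w)

/-- all generators of the word are in the list -/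
def okW (m : ℕ) (w : Word) : Bool := w.all fun x => decide (x.1 < m)

theorem mem_wbox {S : ℤ} (hS : 0 < S) {gb : List (ABox × ABox)} {g : ℕ → Aff3}
    (hg : ∀ i < gb.length, (gb.getD i (oneBox 0, oneBox 0)).1.Mem S (g i) ∧
      (gb.getD i (oneBox 0, oneBox 0)).2.Mem S (g i)⁻¹) {w : Word} (hw : okW gb.length w = true) :
    (wbox S gb w).Mem S (ev g w) := by
  induction w with
  | nil => exact mem_one S
  | cons x w ih =>
    unfold okW at hw
    rw [List.all_cons, Bool.and_eq_true, decide_eq_true_iff] at hw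
    refine mem_comp hS ?_ (ih hw.2)
    obtain ⟨x1, x2⟩ := x
    unfold gbox evL
    cases x2
    · exact (hg x1 hw.1).2
    · exact (hg x1 hw.1).1

/-- the check of the box of a letter -/
def boxChk (S : ℤ) (gb : List (ABox × ABox)) (w : Word) (B : ABox) : Bool :=
  okW gb.length w && ABox.sub (wbox S gb w) B

theorem mem_of_boxChk {S : ℤ} (hS : 0 < S) {gb : List (ABox × ABox)} {g : ℕ → Aff3}
    (hg : ∀ i < gb.length, (gb.getD i (oneBox 0, oneBox 0)).1.Mem S (g i) ∧
      (gb.getD i (oneBox 0, oneBox 0)).2.Mem S (g i)⁻¹) {w : Word} {B : ABox}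
    (h : boxChk S gb w B = true) : B.Mem S (ev g w) := by
  unfold boxChk at h
  rw [Bool.and_eq_true] at h
  exact mem_mono (mem_wbox hS hg h.1) h.2

/-! ### the real point -/

/-- the letter with index `i` -/
def letter (L : List Word) (i : ℕ) : Word := L.getD i []

/-- the check of a relation -/
def relChk (R L : List Word) (r : (ℕ × ℕ × ℕ) × Cert) : Bool :=
  eqChk R (letter L r.1.1 ++ letter L r.1.2.1) (letter L r.1.2.2) r.2

/-- the check of a commutation with the generator `σ` -/
def comChk (R L : List Word) (σ : ℕ) (r : ℕ × Cert) : Bool :=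
  eqChk R (letter L r.1 ++ [(σ, true)]) ((σ, true) :: letter L r.1) r.2

/-- The real point given by generators, relators and boxes of the generators. -/
def realPoint (g : ℕ → Aff3) {R : List Word} (hR : ∀ r ∈ R, ev g r = 1) {S : ℤ} (hS : 0 < S)
    {gb : List (ABox × ABox)} (hg : ∀ i < gb.length, (gb.getD i (oneBox 0, oneBox 0)).1.Mem S (g i) ∧
      (gb.getD i (oneBox 0, oneBox 0)).2.Mem S (g i)⁻¹)
    {σ : ℕ} (hσ : ∀ x, g σ x = sigmaL x) {L : List Word} (hL0 : letter L 0 = [])
    {rels : List (ℕ × ℕ × ℕ)} {bds : List ℕ} {box : ℕ → ABox} {k : ℕ}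
    (hrel : ∀ r ∈ rels, ∃ c : Cert, relChk R L (r, c) = true)
    (hcom : ∀ i ∈ bds, ∃ c : Cert, comChk R L σ (i, c) = true)
    (hbox : ∀ i < k, boxChk S gb (letter L i) (box i) = true) :
    RealPoint k rels bds box (S : ℝ) where
  A i := ev g (letter L i)
  zero := by rw [hL0, ev_nil]
  rel r hr := by
    obtain ⟨c, hc⟩ := hrel r hr
    have := ev_eq_of_chk g hR hc
    rw [ev_append] at this
    exact this
  comm i hi x := by
    obtain ⟨c, hc⟩ := hcom i hi
    have h1 := ev_eq_of_chk g hR hc
    rw [ev_append, ev_cons, ev_cons, ev_nil, mul_one] at h1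
    have h2 := congrArg (fun f : Aff3 => f x) h1
    simp only [evL, if_true, AffineEquiv.coe_mul, Function.comp_apply] at h2
    rw [hσ, hσ] at h2
    exact h2
  mem i hi := mem_of_boxChk hS hg (hbox i hi)

/-- from a list of relations with certificates -/
theorem rel_of_all {R L : List Word} {rels : List (ℕ × ℕ × ℕ)} (cs : List ((ℕ × ℕ × ℕ) × Cert))
    (h : cs.map Prod.fst = rels) (hc : cs.all (relChk R L) = true) :
    ∀ r ∈ rels, ∃ c : Cert, relChk R L (r, c) = true := by
  intro r hr
  rw [← h, List.mem_map] at hr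
  obtain ⟨x, hx, rfl⟩ := hr
  exact ⟨x.2, List.all_eq_true.1 hc x hx⟩

theorem com_of_all {R L : List Word} {σ : ℕ} {bds : List ℕ} (cs : List (ℕ × Cert))
    (h : cs.map Prod.fst = bds) (hc : cs.all (comChk R L σ) = true) :
    ∀ i ∈ bds, ∃ c : Cert, comChk R L σ (i, c) = true := by
  intro r hr
  rw [← h, List.mem_map] at hr
  obtain ⟨x, hx, rfl⟩ := hr
  exact ⟨x.2, List.all_eq_true.1 hc x hx⟩

/-- check of a list of boxes -/
def boxesChk (S : ℤ) (gb : List (ABox × ABox)) : List Word → List ABox → Bool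
  | w :: L, B :: l => boxChk S gb w B && boxesChk S gb L l
  | [], [] => true
  | _, _ => false

theorem box_of_all {S : ℤ} {gb : List (ABox × ABox)} {L : List Word} {l : List ABox} {d : ABox}
    (h : boxesChk S gb L l = true) : ∀ i < L.length, boxChk S gb (letter L i) (l.getD i d) = true := by
  induction L generalizing l with
  | nil =>
    intro i hi
    simp at hi
  | cons w L ih =>
    cases l with
    | nil => simp [boxesChk] at h
    | cons B l =>
      rw [boxesChk, Bool.and_eq_true] at h
      intro i hi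
      cases i with
      | zero => exact h.1
      | succ i =>
        have := ih h.2 i (by simpa using hi)
        simpa [letter] using this

end Pool.Agent.Helper33.CX
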